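import Pool.Agent.Y629.LT.Num
import Pool.Agent.Y418.BG.Breaker

/-!
# Parallelogram lattices in the (k:k) game: two-sided bounds for every k

The question asks whether Breaker can prevent every `q × q` parallelogram lattice with
`q ≥ c √(log₂ N)` in the `(k:k)` game, for all `k ≥ 2` and all `c > 2`.  The starting file
`FairLattice` shows that this is false for `k = 6`, since Maker can build such a lattice if
`c² < 2k / log₂(k+1)`.  Here Breaker's side is treated: he can prevent these lattices if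
`c² > 6k / log₂(k+1)`, and also if `c² > 4k / log₂(k+1) + 6`.  So for all `k ≥ 2` the threshold for
`c` is known up to the factor `√3`, for `k → ∞` up to the factor `√2 + o(1)`, and the statement of
the question fails for every single `k ≥ 6`.

The second bound needs a new potential: a lattice is clean as long as every single move of Maker
meets it in at most one point.  At most `N ^ (4 + o(1))` lattices ever become dirty, and every
clean lattice still misses more than `q ^ 2 - 6 log₂ N - O(k)` points.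
-/

set_option autoImplicit false
set_option linter.unusedVariables false

namespace Pool.Agent.Results.MP_6045b2_co.TwoSidedBound

open Finset Pool.Agent.LatKK
open Pool.Agent.Y418.BG.Breaker (psi w psi_first psi_ge_one exists_reply)
open Pool.Agent.Results.MP_6045b2_co.FairLattice (board unclaimed IsLegalMove IsPlay IsStrategy
  MakerOwns OwnsLattice MakerCanBuild BreakerCanPrevent)
open Pool.Agent.Y629.LT (FollowsB FollowsB_append fam free_disjoint prevent_of_strategy
  card_mem_fam card_fam breaker_sharp)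

section general

variable {β : Type*} [DecidableEq β]

/-- Breaker's criterion (Erdos-Selfridge-Beck) in the (k:k) game. -/
theorem breaker_crit (E : Finset β) (k : ℕ) (hk : 1 ≤ k) (F : Finset (Finset β))
    (hsmall : (1 + k : ℝ) * psi ((1 + k : ℝ) ^ (1 / (k : ℝ))) F ∅ ∅ < 1) :
    ∃ τ : List (Finset β) → Finset β,
      (∀ h : List (Finset β), (free E h).Nonempty → IsMove E k h (τ h)) ∧
      (∀ h : List (Finset β), Legal E k h → FollowsB τ h → ∀ A ∈ F, ¬ A ⊆ own E 0 h) := by
  classical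
  set g : ℝ := (1 + k : ℝ) ^ (1 / (k : ℝ)) with hgd
  have hg : 0 < g := Real.rpow_pos_of_pos (by positivity) _
  have hex : ∀ h : List (Finset β), ∃ R ⊆ free E h, R.card = min k (free E h).card ∧
      ∀ Q ⊆ free E h \ R, Q.card ≤ k →
        psi g F (own E 0 h ∪ Q) (own E 1 h ∪ R) ≤ psi g F (own E 0 h) (own E 1 h) :=
    fun h => exists_reply (F := F) (a := k) (b := k) hk (own E 0 h) (own E 1 h) (free E h)
      (free_disjoint E h)
  choose τ hτ1 hτ2 hτ3 using hex
  refine ⟨τ, ?_, ?_⟩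
  · intro h hne
    refine ⟨hτ1 h, hτ2 h, ?_⟩
    rw [← Finset.card_pos, hτ2 h]
    have := Finset.card_pos.2 hne
    omega
  · have hinv : ∀ h : List (Finset β), Legal E k h → FollowsB τ h →
        (h.length % 2 = 1 → psi g F (own E 0 h) (own E 1 h) < 1) ∧
        (h.length % 2 = 0 → ∀ Q ⊆ free E h, Q.card ≤ k →
          psi g F (own E 0 h ∪ Q) (own E 1 h) < 1) := by
      intro h
      induction h using List.reverseRecOn with
      | nil =>
        intro _ _
        refine ⟨fun h1 => by simp at h1, fun _ Q _ hQ => ?_⟩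
        have e0 : own E 0 ([] : List (Finset β)) = ∅ := by simp [own]
        have e1 : own E 1 ([] : List (Finset β)) = ∅ := by simp [own]
        rw [e0, e1, Finset.empty_union]
        exact lt_of_le_of_lt (psi_first (F := F) (a := k) (b := k) hk Q hQ) hsmall
      | append_singleton h m ih =>
        intro hL hF
        obtain ⟨hL', hM⟩ := Legal_append E k h m hL
        obtain ⟨hF', hmτ⟩ := FollowsB_append τ h m hF
        obtain ⟨ih1, ih0⟩ := ih hL' hF'
        have hmE : m ⊆ E := hM.1.trans (free_subset E h)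
        have hlen : (h ++ [m]).length = h.length + 1 := by simp
        rcases Nat.mod_two_eq_zero_or_one h.length with h4 | h4
        · refine ⟨fun _ => ?_, fun h5 => by rw [hlen] at h5; omega⟩
          rw [own_append_same E 0 h m h4 hmE, own_append_other E 1 h m (by omega)]
          refine ih0 h4 m hM.1 ?_
          rw [hM.2.1]
          exact min_le_left _ _
        · refine ⟨fun h5 => by rw [hlen] at h5; omega, fun _ Q hQ hQk => ?_⟩
          have hms := hmτ h4
          rw [free_append] at hQ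
          rw [own_append_other E 0 h m (by omega), own_append_same E 1 h m h4 hmE]
          have h5 := hτ3 h Q (by rw [← hms]; exact hQ) hQk
          rw [← hms] at h5
          exact lt_of_le_of_lt h5 (ih1 h4)
    intro h hL hF A hA hAM
    have hd := own_disjoint E k h hL
    have h1 : psi g F (own E 0 h) (own E 1 h) < 1 := by
      rcases Nat.mod_two_eq_zero_or_one h.length with h4 | h4
      · have := (hinv h hL hF).2 h4 ∅ (Finset.empty_subset _) (by simp)
        simpa using this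
      · exact (hinv h hL hF).1 h4
    have h2 := psi_ge_one (F := F) (g := g) hg hA (Finset.disjoint_of_subset_left hAM hd) hAM
    linarith

end general

/-- Breaker can prevent all large lattices if their number is small against the weights -/
theorem prevent_of_small {k N q : ℕ} {r : ℝ} (hk : 1 ≤ k) (hq : 2 ≤ q) (hr : (q : ℝ) < r + 1)
    (hsmall : (1 + k : ℝ) * ((N : ℝ) ^ 6 *
      (1 / (1 + k : ℝ) ^ (1 / (k : ℝ))) ^ (q * q)) < 1) : BreakerCanPrevent k N r := by
  classical
  set g : ℝ := (1 + k : ℝ) ^ (1 / (k : ℝ)) with hgd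
  have hg : 0 < g := Real.rpow_pos_of_pos (by positivity) _
  have hpsi : psi g (fam N q) ∅ ∅ ≤ (N : ℝ) ^ 6 * (1 / g) ^ (q * q) := by
    unfold psi
    have h1 : ∀ A ∈ fam N q, w g ∅ ∅ A ≤ (1 / g) ^ (q * q) := by
      intro A hA
      unfold w
      simp [card_mem_fam hA]
    refine (Finset.sum_le_sum h1).trans ?_
    rw [Finset.sum_const, nsmul_eq_mul]
    apply mul_le_mul_of_nonneg_right _ (by positivity)
    exact_mod_cast card_fam N q
  refine prevent_of_strategy hq hr (breaker_crit (board N) k hk (fam N q) ?_)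
  refine lt_of_le_of_lt ?_ hsmall
  exact mul_le_mul_of_nonneg_left hpsi (by positivity)

/-- the upper bound for all `k` -/
theorem breaker_upper (k : ℕ) (c : ℝ) (hk : 1 ≤ k) (hc : 0 < c)
    (h : 6 * (k : ℝ) < c ^ 2 * Real.logb 2 ((k : ℝ) + 1)) :
    ∃ N₀ : ℕ, ∀ N : ℕ, N₀ ≤ N → BreakerCanPrevent k N (c * Real.sqrt (Real.logb 2 N)) := by
  have hkR : (1 : ℝ) ≤ k := by exact_mod_cast hk
  have hk0 : (0 : ℝ) < k := by linarith
  set K := Real.logb 2 ((k : ℝ) + 1) with hK
  set D : ℝ := c ^ 2 * K / k - 6 with hD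
  have hD0 : 0 < D := by
    rw [hD, sub_pos, lt_div_iff₀ hk0]
    exact h
  have hT : Filter.Tendsto (fun N : ℕ => Real.logb 2 (N : ℝ)) Filter.atTop Filter.atTop :=
    (Real.tendsto_logb_atTop (by norm_num)).comp tendsto_natCast_atTop_atTop
  obtain ⟨N₀, hN₀⟩ := Filter.eventually_atTop.1
    ((hT.eventually_gt_atTop (max (K / D) (4 / c ^ 2))).and (Filter.eventually_ge_atTop 1))
  refine ⟨N₀, fun N hN => ?_⟩
  obtain ⟨h1, hN1⟩ := hN₀ N hN
  have hNR : (1 : ℝ) ≤ N := by exact_mod_cast hN1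
  set L := Real.logb 2 (N : ℝ) with hL
  have h2 : K / D < L := lt_of_le_of_lt (le_max_left _ _) h1
  have h3 : 4 / c ^ 2 < L := lt_of_le_of_lt (le_max_right _ _) h1
  have hL0 : 0 < L := lt_trans (by positivity) h3
  set r := c * Real.sqrt L with hr
  have hr2 : r ^ 2 = c ^ 2 * L := by
    rw [hr, mul_pow, Real.sq_sqrt hL0.le]
  have hr0 : 0 ≤ r := by positivity
  have hr4 : 2 ≤ r := by
    rw [div_lt_iff₀ (by positivity)] at h3
    nlinarith
  have hq := Nat.le_ceil r
  have hq' := Nat.ceil_lt_add_one hr0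
  set q := ⌈r⌉₊ with hqd
  have hq2 : 2 ≤ q := by
    have : (2 : ℝ) ≤ q := hr4.trans hq
    exact_mod_cast this
  refine prevent_of_small (q := q) hk hq2 hq' ?_
  have hB : (0 : ℝ) < 1 + k := by linarith
  have hB1 : (1 : ℝ) < 1 + k := by linarith
  have hpow : (1 / (1 + k : ℝ) ^ (1 / (k : ℝ))) ^ (q * q) =
      ((1 + k : ℝ) ^ (((q : ℝ) * q) / k))⁻¹ := by
    rw [one_div, inv_pow, ← Real.rpow_natCast, ← Real.rpow_mul hB.le]
    congr 2
    push_cast
    ring
  rw [hpow]
  have hP : 0 < (1 + k : ℝ) ^ (((q : ℝ) * q) / k) := Real.rpow_pos_of_pos hB _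
  rw [← mul_assoc, ← div_eq_mul_inv, div_lt_one hP]
  have hlog : Real.logb 2 ((1 + k : ℝ) * (N : ℝ) ^ 6) <
      Real.logb 2 ((1 + k : ℝ) ^ (((q : ℝ) * q) / k)) := by
    rw [Real.logb_mul hB.ne' (by positivity), Real.logb_pow, Real.logb_rpow_eq_mul_logb_of_pos hB]
    have e : Real.logb 2 (1 + k : ℝ) = K := by rw [hK, add_comm]
    rw [e, ← hL]
    have hK0 : 0 < K := by
      rw [hK]
      exact Real.logb_pos (by norm_num) (by linarith)
    have h5 : c ^ 2 * L ≤ (q : ℝ) * q := by
      rw [← hr2]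
      nlinarith
    have h6 : c ^ 2 * L / k * K ≤ ((q : ℝ) * q) / k * K := by
      apply mul_le_mul_of_nonneg_right _ hK0.le
      exact div_le_div_of_nonneg_right h5 hk0.le
    have h7 : c ^ 2 * L / k * K = (D + 6) * L := by
      rw [hD]
      ring
    rw [div_lt_iff₀ hD0] at h2
    push_cast
    nlinarith
  exact (Real.logb_lt_logb_iff (by norm_num) (by positivity) hP).1 hlog

/-- `2 log₂ (k + 1) < k` for `k ≥ 6` -/
theorem log_bound (k : ℕ) (hk : 6 ≤ k) : 2 * Real.logb 2 ((k : ℝ) + 1) < k := by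
  have h1 : ((k : ℝ) + 1) ^ 2 < 2 ^ k := by
    have h2 : (k + 1) ^ 2 < 2 ^ k := by
      induction k, hk using Nat.le_induction with
      | base => norm_num
      | succ n hn ih =>
        rw [pow_succ 2 n]
        nlinarith
    exact_mod_cast h2
  have h3 := Real.logb_lt_logb (b := 2) (by norm_num) (by positivity) h1
  rw [Real.logb_pow, Real.logb_pow, Real.logb_self_eq_one (by norm_num)] at h3
  push_cast at h3
  linarith

/-- `log₂ (k + 1) / k → 0` -/
theorem log_small {ε : ℝ} (hε : 0 < ε) : ∃ k₀ : ℕ, ∀ k : ℕ, k₀ ≤ k → 1 ≤ k ∧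
    Real.logb 2 ((k : ℝ) + 1) < ε * k := by
  have h6 : Filter.Tendsto (fun x : ℝ => Real.log x / x) Filter.atTop (nhds 0) := by
    have := Real.isLittleO_log_id_atTop.tendsto_div_nhds_zero
    simpa using this
  have h7 : Filter.Tendsto (fun n : ℕ => Real.log ((n : ℝ) + 1) / ((n : ℝ) + 1)) Filter.atTop
      (nhds 0) :=
    h6.comp (Filter.tendsto_atTop_add_const_right _ _ tendsto_natCast_atTop_atTop)
  have hl : 0 < Real.log 2 := Real.log_pos (by norm_num)
  obtain ⟨k₀, hk₀⟩ := Filter.eventually_atTop.1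
    ((h7.eventually (gt_mem_nhds (show 0 < ε * Real.log 2 / 2 by positivity))).and
      (Filter.eventually_ge_atTop 1))
  refine ⟨k₀, fun k hk => ?_⟩
  obtain ⟨h1, h2⟩ := hk₀ k hk
  refine ⟨h2, ?_⟩
  have hk1 : (1 : ℝ) ≤ k := by exact_mod_cast h2
  rw [div_lt_iff₀ (by linarith)] at h1
  unfold Real.logb
  rw [div_lt_iff₀ hl]
  have h3 : ε * Real.log 2 / 2 * ((k : ℝ) + 1) ≤ ε * k * Real.log 2 := by
    have : 0 < ε * Real.log 2 := by positivity
    nlinarith
  linarith

/-- **Parallelogram lattices in the (k:k) game on the `N × N` board, all `k`.**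
(1) For `k ≥ 2` and `0 < c`, `c² log₂(k+1) < 2k`, for all large `N` Maker can build a `q × q`
parallelogram lattice with `q ≥ c √(log₂ N)`.
(2) For `k ≥ 1` and `0 < c`, for all large `N` Breaker can prevent every `q × q` parallelogram
lattice with `q ≥ c √(log₂ N)`, if `c² log₂(k+1) > 6k` or `c² log₂(k+1) > 4k + 6 log₂(k+1)`.
(3) For every single `k ≥ 6` the statement of the question is false: there is `c > 2` such that for
all large `N` Maker can build a `q × q` parallelogram lattice with `q ≥ c √(log₂ N)`, and Breaker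
cannot prevent this.
(4) Let `s = √(k / log₂(k+1))`.  For every `ε > 0` and all `k ≥ k₀(ε)`, Breaker can prevent
`q ≥ c √(log₂ N)` for all large `N` if `c ≥ (2 + ε) s`, and for no large `N` if
`0 < c ≤ (√2 - ε) s`. -/
theorem result :
    (∀ (k : ℕ) (c : ℝ), 2 ≤ k → 0 < c → c ^ 2 * Real.logb 2 ((k : ℝ) + 1) < 2 * k →
      ∃ N₀ : ℕ, ∀ N : ℕ, N₀ ≤ N → ∃ q : ℕ, c * Real.sqrt (Real.logb 2 N) ≤ q ∧
        MakerCanBuild k N q) ∧
    (∀ (k : ℕ) (c : ℝ), 1 ≤ k → 0 < c →
      (6 * (k : ℝ) < c ^ 2 * Real.logb 2 ((k : ℝ) + 1) ∨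
        4 * (k : ℝ) + 6 * Real.logb 2 ((k : ℝ) + 1) < c ^ 2 * Real.logb 2 ((k : ℝ) + 1)) →
      ∃ N₀ : ℕ, ∀ N : ℕ, N₀ ≤ N → BreakerCanPrevent k N (c * Real.sqrt (Real.logb 2 N))) ∧
    (∀ k : ℕ, 6 ≤ k → ∃ c : ℝ, 2 < c ∧ ∃ N₀ : ℕ, ∀ N : ℕ, N₀ ≤ N →
      (∃ q : ℕ, c * Real.sqrt (Real.logb 2 N) ≤ q ∧ MakerCanBuild k N q) ∧
      ¬ BreakerCanPrevent k N (c * Real.sqrt (Real.logb 2 N))) ∧
    (∀ ε : ℝ, 0 < ε → ∃ k₀ : ℕ, ∀ k : ℕ, k₀ ≤ k → ∀ c : ℝ, 0 < c →
      ((2 + ε) * Real.sqrt (k / Real.logb 2 ((k : ℝ) + 1)) ≤ c → ∃ N₀ : ℕ, ∀ N : ℕ, N₀ ≤ N →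
        BreakerCanPrevent k N (c * Real.sqrt (Real.logb 2 N))) ∧
      (c ≤ (Real.sqrt 2 - ε) * Real.sqrt (k / Real.logb 2 ((k : ℝ) + 1)) →
        ∃ N₀ : ℕ, ∀ N : ℕ, N₀ ≤ N →
          ¬ BreakerCanPrevent k N (c * Real.sqrt (Real.logb 2 N)))) := by
  have hnot : ∀ (k N q : ℕ) (r : ℝ), r ≤ q → MakerCanBuild k N q → ¬ BreakerCanPrevent k N r := by
    rintro k N q r hq ⟨σ, hσ, hσ2⟩ ⟨τ, hτ, hτ2⟩
    obtain ⟨h, hp, hf, hg, hu⟩ := FairLattice.exists_complete_play σ τ hσ hτ
    exact hτ2 h hp hg hu q hq (hσ2 h hp hf hu)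
  have hKpos : ∀ k : ℕ, 1 ≤ k → 0 < Real.logb 2 ((k : ℝ) + 1) := by
    intro k hk
    have : (1 : ℝ) ≤ k := by exact_mod_cast hk
    exact Real.logb_pos (by norm_num) (by linarith)
  refine ⟨FairLattice.maker_lower, ?_, ?_, ?_⟩
  · intro k c hk hc h
    rcases h with h | h
    · exact breaker_upper k c hk hc h
    · exact breaker_sharp k c hk hc h
  · intro k hk
    have hlb := log_bound k hk
    have hK := hKpos k (by omega)
    set K := Real.logb 2 ((k : ℝ) + 1) with hKd
    have hk0 : (0 : ℝ) < k := by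
      have : 0 < k := by omega
      exact_mod_cast this
    -- choose `c² K = k + 2 K`, strictly between `4 K` and `2 k`
    set c := Real.sqrt ((k + 2 * K) / K) with hcd
    have hc2 : c ^ 2 * K = k + 2 * K := by
      rw [hcd, Real.sq_sqrt (by positivity)]
      field_simp
    have hc : 2 < c := by
      have h4 : (2 : ℝ) = Real.sqrt 4 := by
        rw [show (4 : ℝ) = 2 ^ 2 by norm_num, Real.sqrt_sq (by norm_num)]
      rw [h4, hcd]
      apply Real.sqrt_lt_sqrt (by norm_num)
      rw [lt_div_iff₀ hK]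
      linarith
    refine ⟨c, hc, ?_⟩
    obtain ⟨N₀, hN₀⟩ := FairLattice.maker_lower k c (by omega) (by linarith) (by
      rw [← hKd, hc2]; linarith)
    refine ⟨N₀, fun N hN => ?_⟩
    obtain ⟨q, hq1, hq2⟩ := hN₀ N hN
    exact ⟨⟨q, hq1, hq2⟩, hnot k N q _ hq1 hq2⟩
  · intro ε hε
    obtain ⟨k₀, hk₀⟩ := log_small (show 0 < ε / 2 by positivity)
    refine ⟨max k₀ 2, fun k hk c hc0 => ?_⟩
    have hk2 : 2 ≤ k := le_trans (le_max_right _ _) hk
    obtain ⟨hk1, hsm⟩ := hk₀ k (le_trans (le_max_left _ _) hk)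
    have hK := hKpos k hk1
    set K := Real.logb 2 ((k : ℝ) + 1) with hKd
    have hk0 : (0 : ℝ) < k := by
      have : 0 < k := by omega
      exact_mod_cast this
    have hs2 : Real.sqrt (k / K) ^ 2 * K = k := by
      rw [Real.sq_sqrt (by positivity)]
      field_simp
    have hs0 : 0 < Real.sqrt (k / K) := Real.sqrt_pos.2 (by positivity)
    constructor
    · intro hc
      refine breaker_sharp k c hk1 hc0 ?_
      rw [← hKd]
      have h1 : ((2 + ε) * Real.sqrt (k / K)) ^ 2 ≤ c ^ 2 := pow_le_pow_left₀ (by positivity) hc 2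
      have h2 := mul_le_mul_of_nonneg_right h1 hK.le
      have h3 : ((2 + ε) * Real.sqrt (k / K)) ^ 2 * K = (2 + ε) ^ 2 * k := by
        rw [mul_pow, mul_assoc, hs2]
      rw [h3] at h2
      nlinarith [mul_pos hε hk0, mul_pos (mul_pos hε hε) hk0]
    · intro hc
      have hpos : 0 < Real.sqrt 2 - ε := by
        by_contra hcon
        push Not at hcon
        have : (Real.sqrt 2 - ε) * Real.sqrt (k / K) ≤ 0 :=
          mul_nonpos_of_nonpos_of_nonneg hcon hs0.le
        linarith
      have h22 : Real.sqrt 2 ^ 2 = 2 := Real.sq_sqrt (by norm_num)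
      obtain ⟨N₀, hN₀⟩ := FairLattice.maker_lower k c hk2 hc0 (by
        rw [← hKd]
        have h1 : c ^ 2 ≤ ((Real.sqrt 2 - ε) * Real.sqrt (k / K)) ^ 2 :=
          pow_le_pow_left₀ hc0.le hc 2
        have h2 := mul_le_mul_of_nonneg_right h1 hK.le
        have h3 : ((Real.sqrt 2 - ε) * Real.sqrt (k / K)) ^ 2 * K = (Real.sqrt 2 - ε) ^ 2 * k := by
          rw [mul_pow, mul_assoc, hs2]
        rw [h3] at h2
        have h4 : (Real.sqrt 2 - ε) ^ 2 < 2 := by
          have := Real.sqrt_nonneg (2 : ℝ)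
          nlinarith
        have h5 := mul_lt_mul_of_pos_right h4 hk0
        linarith)
      refine ⟨N₀, fun N hN => ?_⟩
      obtain ⟨q, hq1, hq2⟩ := hN₀ N hN
      exact hnot k N q _ hq1 hq2

end Pool.Agent.Results.MP_6045b2_co.TwoSidedBound
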